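import Mathlib
import Pool.Agent.H999R5.Inj.Defs

/-!
# Gaussian sums of symmetric tensors of bounded multilinear rank in injective `ℓ_p` norms

Definitions and the statements (Props) of the tasks.
-/

set_option autoImplicit false

namespace Pool.Agent.H999R5.Rk

open MeasureTheory ProbabilityTheory Finset
open Pool.Agent.H999R5.Inj (form SymT injNorm gm gs S_GAU S_BDD)
open scoped Matrix

/-- the unit ball of `ℓ_p^d` -/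
def ball (d : ℕ) (p : ℝ) : Set (Fin d → ℝ) := {x | ∑ i, |x i| ^ p ≤ 1}

/-- sign -/
def sg (b : Bool) : ℝ := if b then 1 else -1

/-- `sup_x |∑ g_i f_i(x)|` -/
noncomputable def sn {X : Type} {n : ℕ} (f : Fin n → X → ℝ) (g : Fin n → ℝ) : ℝ :=
  ⨆ x : X, |∑ i, g i * f i x|

/-- a bounded family of functions -/
def Bd {X : Type} {n : ℕ} (f : Fin n → X → ℝ) : Prop := ∃ B : ℝ, ∀ i x, |f i x| ≤ B

/-- tensors of multilinear rank at most `R`: in the span of the `r`-fold products of `R` vectors -/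
def MRank {d r : ℕ} (R : ℕ) (T : (Fin r → Fin d) → ℝ) : Prop :=
  ∃ (u : Fin R → Fin d → ℝ) (a : (Fin r → Fin R) → ℝ),
    ∀ k : Fin r → Fin d, T k = ∑ l : Fin r → Fin R, a l * ∏ j, u (l j) (k j)

/-- the multilinear form of a tensor -/
noncomputable def mform {d r : ℕ} (T : (Fin r → Fin d) → ℝ) (x : Fin r → Fin d → ℝ) : ℝ :=
  ∑ k : Fin r → Fin d, T k * ∏ j, x j (k j)

/-! ## statements of the tasks -/

/-- CON: contraction principle for random signs -/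
def S_CON : Prop :=
  ∀ (X : Type), Nonempty X → ∀ (n : ℕ) (a : X → ℝ) (f h : Fin n → X → ℝ),
    (∃ B : ℝ, ∀ x, |a x| ≤ B) → Bd f → Bd h → (∀ i x y, |f i x - f i y| ≤ |h i x - h i y|) →
    ∑ ε : Fin n → Bool, ⨆ x : X, (a x + ∑ i, sg (ε i) * f i x) ≤
      ∑ ε : Fin n → Bool, ⨆ x : X, (a x + ∑ i, sg (ε i) * h i x)

/-- RAD: the two-sided contraction principle (uses CON) -/
def S_RAD : Prop :=
  ∀ (X : Type), Nonempty X → ∀ (n : ℕ) (f h : Fin n → X → ℝ), Bd f → Bd h →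
    (∀ i x y, |f i x - f i y| ≤ |h i x - h i y|) → ∀ x0 : X, (∀ i, f i x0 = 0) →
    ∑ ε : Fin n → Bool, sn f (fun i => sg (ε i)) ≤
      2 * ∑ ε : Fin n → Bool, sn h (fun i => sg (ε i))

/-- SN: basic properties of `sn` -/
def S_SN : Prop :=
  ∀ (X : Type), Nonempty X → ∀ (n : ℕ) (f : Fin n → X → ℝ), Bd f →
    (∀ g x, |∑ i, g i * f i x| ≤ sn f g) ∧
    (∀ g B, (∀ x, |∑ i, g i * f i x| ≤ B) → sn f g ≤ B) ∧
    (∀ g, 0 ≤ sn f g) ∧ Continuous (sn f) ∧ Integrable (sn f) (gm n)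

/-- SGN: the Gaussian measure is invariant under changes of signs -/
def S_SGN : Prop :=
  ∀ (n : ℕ) (ε : Fin n → Bool) (F : (Fin n → ℝ) → ℝ), Continuous F → Integrable F (gm n) →
    Integrable (fun g => F (fun i => sg (ε i) * g i)) (gm n) ∧
    ∫ g, F (fun i => sg (ε i) * g i) ∂(gm n) = ∫ g, F g ∂(gm n)

/-- GR: the contraction principle for Gaussian coefficients (uses RAD, SN, SGN) -/
def S_GR : Prop :=
  ∀ (X : Type), Nonempty X → ∀ (n : ℕ) (f h : Fin n → X → ℝ), Bd f → Bd h →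
    (∀ i x y, |f i x - f i y| ≤ |h i x - h i y|) → ∀ x0 : X, (∀ i, f i x0 = 0) →
    ∫ g, sn f g ∂(gm n) ≤ 2 * ∫ g, sn h g ∂(gm n)

/-- L2: comparison of the unit balls of `ℓ_2` and `ℓ_p` -/
def S_L2 : Prop :=
  ∀ (d : ℕ) (p : ℝ), 1 ≤ d → 2 ≤ p →
    (∀ x ∈ ball d p, ∑ k, x k ^ 2 ≤ (d : ℝ) ^ (1 - 2 / p)) ∧
    ∀ x : Fin d → ℝ, ∑ k, x k ^ 2 ≤ 1 → x ∈ ball d p

/-- VAR: second moments (uses GAU) -/
def S_VAR : Prop :=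
  ∀ (n d : ℕ) (u : Fin n → Fin d → ℝ),
    Integrable (fun g => ∑ k, (∑ i, g i * u i k) ^ 2) (gm n) ∧
    ∫ g, (∑ k, (∑ i, g i * u i k) ^ 2) ∂(gm n) = ∑ i, ∑ k, u i k ^ 2

/-- L1: the linear case (uses L2, VAR, SN) -/
def S_L1 : Prop :=
  ∀ (d n : ℕ) (p : ℝ), 1 ≤ d → 2 ≤ p → ∀ (u : Fin n → Fin d → ℝ) (N : Fin n → ℝ),
    (∀ i, 0 ≤ N i) → (∀ i, ∀ x ∈ ball d p, |u i ⬝ᵥ x| ≤ N i) →
    ∫ g, sn (fun i (x : ↥(ball d p)) => u i ⬝ᵥ x.1) g ∂(gm n) ≤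
      (d : ℝ) ^ (1 / 2 - 1 / p) * Real.sqrt (∑ i, N i ^ 2)

/-- RK1: the case of rank one (uses GR, L1) -/
def S_RK1 : Prop :=
  ∀ (r d n : ℕ) (p : ℝ), 1 ≤ r → 1 ≤ d → 2 ≤ p → ∀ (c : Fin n → ℝ) (v : Fin n → Fin d → ℝ)
    (L : Fin n → ℝ), (∀ i, 0 ≤ L i) → (∀ i, ∀ x ∈ ball d p, |v i ⬝ᵥ x| ≤ L i) →
    ∫ g, sn (fun i (x : ↥(ball d p)) => c i * (v i ⬝ᵥ x.1) ^ r) g ∂(gm n) ≤
      2 * r * (d : ℝ) ^ (1 / 2 - 1 / p) * Real.sqrt (∑ i, (|c i| * L i ^ r) ^ 2)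

/-- CVX: convexity -/
def S_CVX : Prop :=
  ∀ (X : Type), Nonempty X → ∀ (n : ℕ) (ι : Type) (_ : Fintype ι) (_ : DecidableEq ι)
    (θ : Fin n → ι → ℝ) (S : Fin n → ι → X → ℝ), (∀ i j, 0 ≤ θ i j) → (∀ i, ∑ j, θ i j = 1) →
    (∃ B : ℝ, ∀ i j x, |S i j x| ≤ B) →
    (∑ J : Fin n → ι, ∏ i, θ i (J i) = 1) ∧
    ∀ g, sn (fun i x => ∑ j, θ i j * S i j x) g ≤
      ∑ J : Fin n → ι, (∏ i, θ i (J i)) * sn (fun i x => S i (J i) x) g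

/-- MIX: the nuclear norm bound (uses RK1, CVX, SN) -/
def S_MIX : Prop :=
  ∀ (r d n : ℕ) (p : ℝ), 1 ≤ r → 1 ≤ d → 2 ≤ p → ∀ (ι : Type) (_ : Fintype ι)
    (_ : DecidableEq ι) (c : Fin n → ι → ℝ) (v : Fin n → ι → Fin d → ℝ)
    (L : Fin n → ι → ℝ), (∀ i j, 0 ≤ L i j) → (∀ i j, ∀ x ∈ ball d p, |v i j ⬝ᵥ x| ≤ L i j) →
    ∫ g, sn (fun i (x : ↥(ball d p)) => ∑ j, c i j * (v i j ⬝ᵥ x.1) ^ r) g ∂(gm n) ≤
      2 * r * (d : ℝ) ^ (1 / 2 - 1 / p) * Real.sqrt (∑ i, (∑ j, |c i j| * L i j ^ r) ^ 2)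

/-- AUB: Auerbach system of a family of linear forms on the unit ball -/
def S_AUB : Prop :=
  ∀ (R d : ℕ) (p : ℝ), 0 < p → ∀ u : Fin R → Fin d → ℝ,
    ∃ (x b : Fin R → Fin d → ℝ), (∀ k, x k ∈ ball d p) ∧
      (∀ k, ∀ y ∈ ball d p, |b k ⬝ᵥ y| ≤ 1) ∧
      ∀ j (y : Fin d → ℝ), u j ⬝ᵥ y = ∑ k, (b k ⬝ᵥ y) * (u j ⬝ᵥ x k)

/-- POLI: the polarisation identity -/
def S_POLI : Prop :=
  ∀ (r d : ℕ) (T : (Fin r → Fin d) → ℝ), SymT T → ∀ x : Fin r → Fin d → ℝ,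
    ∑ ε : Fin r → Bool, (∏ j, sg (ε j)) * form T (∑ j, sg (ε j) • x j) =
      2 ^ r * (r.factorial : ℝ) * mform T x

/-- POL: the polarisation constant (uses POLI, BDD) -/
def S_POL : Prop :=
  ∀ (r d : ℕ) (p : ℝ), 1 ≤ r → 1 ≤ p → ∀ T : (Fin r → Fin d) → ℝ, SymT T →
    ∀ x : Fin r → Fin d → ℝ, (∀ j, x j ∈ ball d p) →
    |mform T x| ≤ (r : ℝ) ^ r / r.factorial * injNorm p T

/-- DEC: decomposition of tensors of bounded multilinear rank (uses AUB, POL, POLI) -/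
def S_DEC : Prop :=
  ∀ (r R d : ℕ) (p : ℝ), 1 ≤ r → 1 ≤ p → ∀ T : (Fin r → Fin d) → ℝ, SymT T → MRank R T →
    ∃ (c : (Fin r → Fin R) × (Fin r → Bool) → ℝ)
      (v : (Fin r → Fin R) × (Fin r → Bool) → Fin d → ℝ),
      (∀ q, ∀ x ∈ ball d p, |v q ⬝ᵥ x| ≤ r) ∧
      (∀ x, form T x = ∑ q, c q * (v q ⬝ᵥ x) ^ r) ∧
      ∑ q, |c q| * (r : ℝ) ^ r ≤ (R : ℝ) ^ r * ((r : ℝ) ^ r / r.factorial) ^ 2 * injNorm p T

/-- the final statement (uses MIX, DEC, BDD, SN) -/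
def S_RES : Prop :=
  ∀ (r R : ℕ) (p : ℝ), 1 ≤ r → 2 ≤ p → ∀ d n : ℕ, 1 ≤ d →
    ∀ T : Fin n → (Fin r → Fin d) → ℝ, (∀ i, SymT (T i)) → (∀ i, MRank R (T i)) →
      Integrable (fun g => injNorm p (gs T g)) (gm n) ∧
      ∫ g, injNorm p (gs T g) ∂(gm n) ≤
        2 * r * (R : ℝ) ^ r * ((r : ℝ) ^ r / r.factorial) ^ 2 * (d : ℝ) ^ (1 / 2 - 1 / p) *
          Real.sqrt (∑ i, injNorm p (T i) ^ 2)

end Pool.Agent.H999R5.Rk
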