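import Pool.Agent.H999R5.Rk.Defs

/-! Task AUB (helper475): Auerbach system of a family of linear forms on the unit ball. -/

set_option autoImplicit false

namespace Pool.Agent.H999R5.Rk

open MeasureTheory ProbabilityTheory Finset
open scoped Matrix

theorem AUB_compact (d : ℕ) (p : ℝ) (hp : 0 < p) : IsCompact (ball d p) := by
  apply IsCompact.of_isClosed_subset (isCompact_closedBall (0 : Fin d → ℝ) 1)
  · unfold ball
    refine isClosed_le ?_ continuous_const
    refine continuous_finsetSum _ fun i _ => ?_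
    exact ((continuous_apply i).abs).rpow_const fun _ => Or.inr hp.le
  · intro x hx
    rw [mem_closedBall_zero_iff, pi_norm_le_iff_of_nonneg zero_le_one]
    intro i
    have h1 : |x i| ^ p ≤ 1 := le_trans (Finset.single_le_sum (f := fun i => |x i| ^ p)
      (fun j _ => Real.rpow_nonneg (abs_nonneg _) _) (mem_univ i)) hx
    by_contra hcon
    push Not at hcon
    rw [Real.norm_eq_abs] at hcon
    have := Real.one_lt_rpow hcon hp
    linarith

theorem AUB_zero (d : ℕ) (p : ℝ) (hp : 0 < p) : (0 : Fin d → ℝ) ∈ ball d p := by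
  show ∑ i, |(0 : Fin d → ℝ) i| ^ p ≤ 1
  simp [Real.zero_rpow hp.ne']

theorem AUB_scale {R : ℕ} (d : ℕ) (p : ℝ) (hp : 0 < p) (u : Fin R → Fin d → ℝ) :
    ∃ c : ℝ, 0 < c ∧ ∀ k, c • u k ∈ ball d p := by
  have hpos : ∀ k i, 0 ≤ |u k i| ^ p := fun k i => Real.rpow_nonneg (abs_nonneg _) _
  set M : ℝ := 1 + ∑ k, ∑ i, |u k i| ^ p with hM
  have hM0 : 0 < M := by
    have : 0 ≤ ∑ k, ∑ i, |u k i| ^ p :=
      Finset.sum_nonneg fun k _ => Finset.sum_nonneg fun i _ => hpos k i
    linarith
  refine ⟨M ^ (-(1 / p)), by positivity, fun k => ?_⟩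
  show ∑ i, |(M ^ (-(1 / p)) • u k) i| ^ p ≤ 1
  have h1 : ∀ i, |(M ^ (-(1 / p)) • u k) i| ^ p = M⁻¹ * |u k i| ^ p := by
    intro i
    rw [Pi.smul_apply, smul_eq_mul, abs_mul, abs_of_pos (a := M ^ (-(1 / p))) (by positivity),
      Real.mul_rpow (by positivity) (abs_nonneg _), ← Real.rpow_mul hM0.le]
    congr 1
    have : -(1 / p) * p = -1 := by field_simp
    rw [this, Real.rpow_neg_one]
  rw [Finset.sum_congr rfl fun i _ => h1 i, ← Finset.mul_sum]
  rw [inv_mul_le_iff₀ hM0, mul_one]
  have : ∑ i, |u k i| ^ p ≤ ∑ k, ∑ i, |u k i| ^ p :=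
    Finset.single_le_sum (f := fun k => ∑ i, |u k i| ^ p)
      (fun k _ => Finset.sum_nonneg fun i _ => hpos k i) (mem_univ k)
  linarith

theorem AUB_dep {R d : ℕ} (u : Fin R → Fin d → ℝ)
    (h : (Matrix.of fun j k => u j ⬝ᵥ u k : Matrix (Fin R) (Fin R) ℝ).det = 0) :
    ∃ w : Fin R → ℝ, w ≠ 0 ∧ ∀ i, ∑ j, w j * u j i = 0 := by
  obtain ⟨w, hw0, hw⟩ := Matrix.exists_mulVec_eq_zero_iff.mpr h
  refine ⟨w, hw0, ?_⟩
  have h1 : ∑ i, (∑ j, w j * u j i) ^ 2 = 0 := by
    have h2 : ∑ i, (∑ j, w j * u j i) ^ 2 =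
        ∑ j, w j * ((Matrix.of fun j k => u j ⬝ᵥ u k : Matrix (Fin R) (Fin R) ℝ) *ᵥ w) j := by
      simp only [Matrix.mulVec, dotProduct, Matrix.of_apply, sq,
        Finset.mul_sum, Finset.sum_mul]
      rw [Finset.sum_comm]
      refine Finset.sum_congr rfl fun j _ => ?_
      rw [Finset.sum_comm]
      refine Finset.sum_congr rfl fun k _ => Finset.sum_congr rfl fun i _ => by ring
    rw [h2, hw]
    simp
  intro i
  have h3 := (Finset.sum_eq_zero_iff_of_nonneg (fun i _ => sq_nonneg _)).1 h1 i (mem_univ i)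
  exact pow_eq_zero_iff two_ne_zero |>.1 h3

theorem t_AUB : S_AUB := by
  intro R
  induction R with
  | zero =>
    intro d p hp u
    exact ⟨fun k => k.elim0, fun k => k.elim0, fun k => k.elim0, fun k => k.elim0,
      fun j => j.elim0⟩
  | succ R ih =>
    intro d p hp u
    set A : (Fin (R + 1) → Fin d → ℝ) → Matrix (Fin (R + 1)) (Fin (R + 1)) ℝ :=
      fun x => Matrix.of fun j k => u j ⬝ᵥ x k with hA
    have hcont : Continuous fun x => |(A x).det| := by
      apply Continuous.abs
      apply Continuous.matrix_det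
      apply continuous_matrix
      intro j k
      simp only [hA, Matrix.of_apply, dotProduct]
      fun_prop
    have hK : IsCompact (Set.pi Set.univ fun _ : Fin (R + 1) => ball d p) :=
      isCompact_univ_pi fun _ => AUB_compact d p hp
    obtain ⟨x, hx, hmax⟩ := hK.exists_isMaxOn ⟨fun _ => 0, fun _ _ => AUB_zero d p hp⟩
      hcont.continuousOn
    have hx' : ∀ k, x k ∈ ball d p := fun k => hx k (Set.mem_univ k)
    have hmax' : ∀ y : Fin (R + 1) → Fin d → ℝ, (∀ k, y k ∈ ball d p) →
        |(A y).det| ≤ |(A x).det| := fun y hy => hmax (fun k _ => hy k)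
    by_cases hD : (A x).det = 0
    · obtain ⟨c, hc, hcu⟩ := AUB_scale d p hp u
      have h1 : (A (fun k => c • u k)).det = 0 := by
        have := hmax' _ hcu
        rw [hD, abs_zero] at this
        exact abs_eq_zero.1 (le_antisymm this (abs_nonneg _))
      have h2 : A (fun k => c • u k) = c • (Matrix.of fun j k => u j ⬝ᵥ u k) := by
        ext j k
        simp [hA, dotProduct_smul]
      rw [h2, Matrix.det_smul] at h1
      have h3 := (mul_eq_zero.1 h1).resolve_left (pow_ne_zero _ hc.ne')
      obtain ⟨w, hw0, hw⟩ := AUB_dep u h3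
      obtain ⟨j0, hj0⟩ := Function.ne_iff.1 hw0
      have hj0' : w j0 ≠ 0 := hj0
      obtain ⟨x', b', hx1, hb1, hid⟩ := ih d p hp (fun j => u (j0.succAbove j))
      set X : Fin (R + 1) → Fin d → ℝ := Fin.insertNth (α := fun _ => Fin d → ℝ) j0 0 x' with hX
      set Bb : Fin (R + 1) → Fin d → ℝ := Fin.insertNth (α := fun _ => Fin d → ℝ) j0 0 b' with hB
      have hX0 : X j0 = 0 := Fin.insertNth_apply_same (α := fun _ => Fin d → ℝ) j0 0 x'
      have hX1 : ∀ i, X (j0.succAbove i) = x' i :=
        fun i => Fin.insertNth_apply_succAbove (α := fun _ => Fin d → ℝ) j0 0 x' i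
      have hB0 : Bb j0 = 0 := Fin.insertNth_apply_same (α := fun _ => Fin d → ℝ) j0 0 b'
      have hB1 : ∀ i, Bb (j0.succAbove i) = b' i :=
        fun i => Fin.insertNth_apply_succAbove (α := fun _ => Fin d → ℝ) j0 0 b' i
      have hid' : ∀ v y : Fin d → ℝ, ∑ k, (Bb k ⬝ᵥ y) * (v ⬝ᵥ X k) =
          ∑ k, (b' k ⬝ᵥ y) * (v ⬝ᵥ x' k) := by
        intro v y
        rw [Fin.sum_univ_succAbove _ j0, hB0, zero_dotProduct, zero_mul, zero_add]
        exact Finset.sum_congr rfl fun k _ => by rw [hB1, hX1]
      have hu0 : u j0 = ∑ j', (-(w (j0.succAbove j')) / w j0) • u (j0.succAbove j') := by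
        funext i
        have h5 := hw i
        rw [Fin.sum_univ_succAbove _ j0] at h5
        rw [Finset.sum_apply]
        simp only [Pi.smul_apply, smul_eq_mul]
        have h4 : u j0 i =
            (-(∑ j', w (j0.succAbove j') * u (j0.succAbove j') i)) / w j0 := by
          rw [eq_div_iff hj0']
          linarith
        rw [h4, ← Finset.sum_neg_distrib, Finset.sum_div]
        refine Finset.sum_congr rfl fun j' _ => by ring
      have hu1 : ∀ y : Fin d → ℝ, u j0 ⬝ᵥ y =
          ∑ j', (-(w (j0.succAbove j')) / w j0) * (u (j0.succAbove j') ⬝ᵥ y) := by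
        intro y
        conv_lhs => rw [hu0]
        rw [sum_dotProduct]
        exact Finset.sum_congr rfl fun j' _ => by rw [smul_dotProduct, smul_eq_mul]
      refine ⟨X, Bb, ?_, ?_, ?_⟩
      · rw [Fin.forall_iff_succAbove j0]
        refine ⟨by rw [hX0]; exact AUB_zero d p hp, fun i => by rw [hX1]; exact hx1 i⟩
      · rw [Fin.forall_iff_succAbove j0]
        refine ⟨fun y _ => by rw [hB0, zero_dotProduct, abs_zero]; exact zero_le_one,
          fun i y hy => by rw [hB1]; exact hb1 i y hy⟩
      · rw [Fin.forall_iff_succAbove j0]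
        refine ⟨fun y => ?_, fun i y => by rw [hid']; exact hid i y⟩
        rw [hid', hu1 y]
        rw [Finset.sum_congr rfl fun j' _ => by rw [hid j' y]]
        simp only [Finset.mul_sum]
        rw [Finset.sum_comm]
        refine Finset.sum_congr rfl fun k _ => ?_
        rw [hu1 (x' k), Finset.mul_sum]
        refine Finset.sum_congr rfl fun j' _ => by ring
    · have hb : ∀ k (y : Fin d → ℝ),
          (fun i => (Matrix.cramer (A x) (fun j => u j i)) k / (A x).det) ⬝ᵥ y =
            (Matrix.cramer (A x) (fun j => u j ⬝ᵥ y)) k / (A x).det := by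
        intro k y
        have h1 : (fun j => u j ⬝ᵥ y) = ∑ i, y i • (fun j => u j i) := by
          funext j
          simp [dotProduct, Finset.sum_apply, mul_comm]
        rw [h1, map_sum, Finset.sum_apply, Finset.sum_div, dotProduct]
        refine Finset.sum_congr rfl fun i _ => ?_
        rw [map_smul, Pi.smul_apply, smul_eq_mul]
        ring
      refine ⟨x, fun k i => (Matrix.cramer (A x) (fun j => u j i)) k / (A x).det, hx', ?_, ?_⟩
      · intro k y hy
        rw [hb, abs_div, div_le_one (abs_pos.2 hD), Matrix.cramer_apply]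
        have h1 : (A x).updateCol k (fun j => u j ⬝ᵥ y) = A (Function.update x k y) := by
          ext j k'
          by_cases hk : k' = k
          · subst hk
            simp [hA]
          · rw [Matrix.updateCol_ne hk]
            simp [hA, Function.update_of_ne hk]
        rw [h1]
        refine hmax' _ fun k' => ?_
        by_cases hk : k' = k
        · subst hk
          rw [Function.update_self]
          exact hy
        · rw [Function.update_of_ne hk]
          exact hx' k'
      · intro j y
        simp only [hb]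
        have h1 := congrFun (Matrix.mulVec_cramer (A x) (fun j => u j ⬝ᵥ y)) j
        rw [Pi.smul_apply, smul_eq_mul, Matrix.mulVec, dotProduct] at h1
        have h2 : ∀ k, (Matrix.cramer (A x) (fun j => u j ⬝ᵥ y)) k / (A x).det * (u j ⬝ᵥ x k) =
            (A x j k * (Matrix.cramer (A x) (fun j => u j ⬝ᵥ y)) k) / (A x).det := by
          intro k
          have : A x j k = u j ⬝ᵥ x k := rfl
          rw [this]; ring
        rw [Finset.sum_congr rfl fun k _ => h2 k, ← Finset.sum_div, h1]
        field_simp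

end Pool.Agent.H999R5.Rk
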