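import Pool.Agent.H999R5.Rk.Defs

/-! CON: contraction principle for random signs. -/

set_option autoImplicit false

namespace Pool.Agent.H999R5.Rk

open MeasureTheory ProbabilityTheory Finset
open Pool.Agent.H999R5.Inj (form SymT injNorm gm gs S_GAU S_BDD)

namespace TCON

theorem bdd_of_abs {X : Type} {F : X → ℝ} {C : ℝ} (h : ∀ x, |F x| ≤ C) :
    BddAbove (Set.range F) := by
  refine ⟨C, ?_⟩
  rintro _ ⟨x, rfl⟩
  exact (le_abs_self _).trans (h x)

theorem step {X : Type} [Nonempty X] (b f h : X → ℝ) (B : ℝ) (hb : ∀ x, |b x| ≤ B)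
    (hh : ∀ x, |h x| ≤ B) (hfh : ∀ x y, |f x - f y| ≤ |h x - h y|) :
    (⨆ x, (b x + f x)) + (⨆ x, (b x - f x)) ≤ (⨆ x, (b x + h x)) + (⨆ x, (b x - h x)) := by
  have h1 : BddAbove (Set.range fun x => b x + h x) :=
    bdd_of_abs (C := B + B) fun x => (abs_add_le _ _).trans (add_le_add (hb x) (hh x))
  have h2 : BddAbove (Set.range fun x => b x - h x) :=
    bdd_of_abs (C := B + B) fun x => (abs_sub _ _).trans (add_le_add (hb x) (hh x))
  refine ciSup_add_ciSup_le fun x y => ?_
  have h3 := le_ciSup h1 x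
  have h4 := le_ciSup h1 y
  have h5 := le_ciSup h2 x
  have h6 := le_ciSup h2 y
  have h7 : f x - f y ≤ |h x - h y| := (le_abs_self _).trans (hfh x y)
  rcases le_total 0 (h x - h y) with h8 | h8
  · rw [abs_of_nonneg h8] at h7
    linarith
  · rw [abs_of_nonpos h8] at h7
    linarith

theorem abs_sg (e : Bool) : |sg e| = 1 := by
  unfold sg
  cases e <;> simp

theorem abs_sum {X : Type} {n : ℕ} (ε : Fin n → Bool) (f : Fin n → X → ℝ) (B : ℝ)
    (hf : ∀ i x, |f i x| ≤ B) (x : X) : |∑ i, sg (ε i) * f i x| ≤ n * B := by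
  refine (Finset.abs_sum_le_sum_abs _ _).trans ?_
  refine (Finset.sum_le_sum (g := fun _ => B) fun i _ => ?_).trans ?_
  · rw [abs_mul, abs_sg, one_mul]
    exact hf i x
  · simp

theorem split {X : Type} (n : ℕ) (a : X → ℝ) (F : Fin (n + 1) → X → ℝ) :
    ∑ ε : Fin (n + 1) → Bool, ⨆ x : X, (a x + ∑ i, sg (ε i) * F i x) =
      ∑ ε : Fin n → Bool, ((⨆ x : X, ((a x + ∑ i, sg (ε i) * F i.succ x) + F 0 x)) +
        ⨆ x : X, ((a x + ∑ i, sg (ε i) * F i.succ x) - F 0 x)) := by
  rw [← (Fin.consEquiv (fun _ => Bool)).sum_comp, Fintype.sum_prod_type, Fintype.sum_bool,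
    ← Finset.sum_add_distrib]
  refine Finset.sum_congr rfl fun ε _ => ?_
  congr 1
  · refine iSup_congr fun x => ?_
    rw [Fin.sum_univ_succ]
    simp only [Fin.consEquiv_apply, Fin.cons_zero, Fin.cons_succ, sg, if_true]
    ring
  · refine iSup_congr fun x => ?_
    rw [Fin.sum_univ_succ]
    simp only [Fin.consEquiv_apply, Fin.cons_zero, Fin.cons_succ, sg, Bool.false_eq_true, if_false]
    ring

theorem main {X : Type} [Nonempty X] (n : ℕ) : ∀ (a : X → ℝ) (f h : Fin n → X → ℝ) (B : ℝ),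
    (∀ x, |a x| ≤ B) → (∀ i x, |f i x| ≤ B) → (∀ i x, |h i x| ≤ B) →
    (∀ i x y, |f i x - f i y| ≤ |h i x - h i y|) →
    ∑ ε : Fin n → Bool, ⨆ x : X, (a x + ∑ i, sg (ε i) * f i x) ≤
      ∑ ε : Fin n → Bool, ⨆ x : X, (a x + ∑ i, sg (ε i) * h i x) := by
  induction n with
  | zero =>
    intro a f h B _ _ _ _
    refine Finset.sum_le_sum fun ε _ => ?_
    simp
  | succ n ih =>
    intro a f h B ha hf hh hfh
    have hB : 0 ≤ B := by
      obtain ⟨x⟩ := (inferInstance : Nonempty X)
      exact (abs_nonneg _).trans (ha x)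
    rw [split, split]
    have hn : (0 : ℝ) ≤ n := Nat.cast_nonneg n
    have h1 : ∀ ε : Fin n → Bool,
        (⨆ x : X, ((a x + ∑ i, sg (ε i) * f i.succ x) + f 0 x)) +
          (⨆ x : X, ((a x + ∑ i, sg (ε i) * f i.succ x) - f 0 x)) ≤
        (⨆ x : X, ((a x + h 0 x) + ∑ i, sg (ε i) * f i.succ x)) +
          (⨆ x : X, ((a x - h 0 x) + ∑ i, sg (ε i) * f i.succ x)) := by
      intro ε
      have h2 := step (fun x => a x + ∑ i, sg (ε i) * f i.succ x) (f 0) (h 0) (B + n * B)
        (fun x => (abs_add_le _ _).trans (add_le_add (ha x)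
          (abs_sum ε (fun i => f i.succ) B (fun i x => hf i.succ x) x)))
        (fun x => (hh 0 x).trans (by nlinarith)) (hfh 0)
      refine h2.trans (le_of_eq ?_)
      congr 1
      · exact iSup_congr fun x => by ring
      · exact iSup_congr fun x => by ring
    refine (Finset.sum_le_sum fun ε _ => h1 ε).trans ?_
    have h3 := ih (fun x => a x + h 0 x) (fun i => f i.succ) (fun i => h i.succ) (2 * B)
      (fun x => (abs_add_le _ _).trans (by have := ha x; have := hh 0 x; linarith))
      (fun i x => (hf i.succ x).trans (by linarith)) (fun i x => (hh i.succ x).trans (by linarith))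
      (fun i x y => hfh i.succ x y)
    have h4 := ih (fun x => a x - h 0 x) (fun i => f i.succ) (fun i => h i.succ) (2 * B)
      (fun x => (abs_sub _ _).trans (by have := ha x; have := hh 0 x; linarith))
      (fun i x => (hf i.succ x).trans (by linarith)) (fun i x => (hh i.succ x).trans (by linarith))
      (fun i x y => hfh i.succ x y)
    rw [Finset.sum_add_distrib]
    refine (add_le_add h3 h4).trans (le_of_eq ?_)
    rw [← Finset.sum_add_distrib]
    refine Finset.sum_congr rfl fun ε _ => ?_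
    congr 1
    · exact iSup_congr fun x => by ring
    · exact iSup_congr fun x => by ring

end TCON

theorem t_CON : S_CON := by
  intro X hX n a f h ⟨B1, h1⟩ ⟨B2, h2⟩ ⟨B3, h3⟩ hfh
  exact TCON.main n a f h (max B1 (max B2 B3)) (fun x => (h1 x).trans (le_max_left _ _))
    (fun i x => (h2 i x).trans ((le_max_left _ _).trans (le_max_right _ _)))
    (fun i x => (h3 i x).trans ((le_max_right _ _).trans (le_max_right _ _))) hfh

end Pool.Agent.H999R5.Rk
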