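import Pool.Agent.H999R5.Rk.Defs

/-! CVX: convexity of suprema of linear combinations -/

set_option autoImplicit false

namespace Pool.Agent.H999R5.Rk

open MeasureTheory ProbabilityTheory Finset
open Pool.Agent.H999R5.Inj (form SymT injNorm gm gs S_GAU S_BDD)
open scoped Matrix

theorem cvx_one {n : ℕ} {ι : Type} [Fintype ι] [DecidableEq ι] (θ : Fin n → ι → ℝ)
    (h : ∀ i, ∑ j, θ i j = 1) : ∑ J : Fin n → ι, ∏ i, θ i (J i) = 1 := by
  rw [← Fintype.prod_sum]
  exact Finset.prod_eq_one fun i _ => h i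

theorem cvx_marg {n : ℕ} {ι : Type} [Fintype ι] [DecidableEq ι] (θ : Fin n → ι → ℝ)
    (h : ∀ i, ∑ j, θ i j = 1) (i0 : Fin n) (s : ι → ℝ) :
    ∑ J : Fin n → ι, (∏ i, θ i (J i)) * s (J i0) = ∑ j, θ i0 j * s j := by
  classical
  have h1 : ∀ J : Fin n → ι, (∏ i, θ i (J i)) * s (J i0) =
      ∏ i, Function.update θ i0 (fun j => θ i0 j * s j) i (J i) := by
    intro J
    rw [← Finset.mul_prod_erase Finset.univ (fun i => θ i (J i)) (Finset.mem_univ i0),
      ← Finset.mul_prod_erase Finset.univ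
        (fun i => Function.update θ i0 (fun j => θ i0 j * s j) i (J i)) (Finset.mem_univ i0),
      Function.update_self]
    have h2 : ∏ i ∈ Finset.univ.erase i0,
        Function.update θ i0 (fun j => θ i0 j * s j) i (J i) =
        ∏ i ∈ Finset.univ.erase i0, θ i (J i) := by
      refine Finset.prod_congr rfl fun i hi => ?_
      rw [Function.update_of_ne (Finset.ne_of_mem_erase hi)]
    rw [h2]
    ring
  rw [Finset.sum_congr rfl fun J _ => h1 J, ← Fintype.prod_sum]
  rw [← Finset.mul_prod_erase Finset.univ _ (Finset.mem_univ i0), Function.update_self]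
  have h3 : ∏ i ∈ Finset.univ.erase i0,
      ∑ j, Function.update θ i0 (fun j => θ i0 j * s j) i j = 1 := by
    refine Finset.prod_eq_one fun i hi => ?_
    rw [Function.update_of_ne (Finset.ne_of_mem_erase hi)]
    exact h i
  rw [h3, mul_one]

theorem t_CVX : S_CVX := by
  intro X hX n ι hι hd θ S h0 h1 hB
  obtain ⟨B, hB⟩ := hB
  refine ⟨cvx_one θ h1, fun g => ?_⟩
  have hbd : ∀ J : Fin n → ι, BddAbove (Set.range fun x : X => |∑ i, g i * S i (J i) x|) := by
    intro J
    refine ⟨∑ i, |g i| * B, ?_⟩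
    rintro _ ⟨x, rfl⟩
    refine (Finset.abs_sum_le_sum_abs _ _).trans (Finset.sum_le_sum fun i _ => ?_)
    rw [abs_mul]
    exact mul_le_mul_of_nonneg_left (hB i (J i) x) (abs_nonneg _)
  unfold sn
  refine ciSup_le fun x => ?_
  have hx : ∑ i, g i * ∑ j, θ i j * S i j x =
      ∑ J : Fin n → ι, (∏ i, θ i (J i)) * ∑ i, g i * S i (J i) x := by
    have e1 : ∀ i0 : Fin n, g i0 * ∑ j, θ i0 j * S i0 j x =
        ∑ J : Fin n → ι, (∏ i, θ i (J i)) * (g i0 * S i0 (J i0) x) := by
      intro i0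
      rw [← cvx_marg θ h1 i0 (fun j => S i0 j x), Finset.mul_sum]
      refine Finset.sum_congr rfl fun J _ => ?_
      ring
    rw [Finset.sum_congr rfl fun i0 _ => e1 i0, Finset.sum_comm]
    refine Finset.sum_congr rfl fun J _ => ?_
    rw [Finset.mul_sum]
  show |∑ i, g i * ∑ j, θ i j * S i j x| ≤ _
  rw [hx]
  refine (Finset.abs_sum_le_sum_abs _ _).trans (Finset.sum_le_sum fun J _ => ?_)
  have hp : 0 ≤ ∏ i, θ i (J i) := Finset.prod_nonneg fun i _ => h0 i (J i)
  rw [abs_mul, abs_of_nonneg hp]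
  exact mul_le_mul_of_nonneg_left (le_ciSup (hbd J) x) hp

end Pool.Agent.H999R5.Rk
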