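import Pool.Agent.H999R5.Rk.Defs

/-! DEC: decomposition of tensors of bounded multilinear rank. -/

set_option autoImplicit false

namespace Pool.Agent.H999R5.Rk

open MeasureTheory ProbabilityTheory Finset
open Pool.Agent.H999R5.Inj (form SymT injNorm gm gs S_GAU S_BDD)
open scoped Matrix

theorem dec_form {d r : ℕ} (T : (Fin r → Fin d) → ℝ) (y : Fin d → ℝ) :
    form T y = mform T (fun _ => y) := rfl

theorem dec_mform {d r R : ℕ} (T : (Fin r → Fin d) → ℝ) (u : Fin R → Fin d → ℝ)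
    (a : (Fin r → Fin R) → ℝ)
    (hua : ∀ k : Fin r → Fin d, T k = ∑ l : Fin r → Fin R, a l * ∏ j, u (l j) (k j))
    (X : Fin r → Fin d → ℝ) :
    mform T X = ∑ l : Fin r → Fin R, a l * ∏ j, (u (l j) ⬝ᵥ X j) := by
  have h1 : ∀ l : Fin r → Fin R, ∏ j, (u (l j) ⬝ᵥ X j) =
      ∑ k : Fin r → Fin d, ∏ j, (u (l j) (k j) * X j (k j)) := by
    intro l
    have := Finset.prod_univ_sum (fun _ : Fin r => (Finset.univ : Finset (Fin d)))
      (fun j i => u (l j) i * X j i)
    rw [Fintype.piFinset_univ] at this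
    exact this
  unfold mform
  simp_rw [hua, h1, Finset.sum_mul, Finset.mul_sum]
  rw [Finset.sum_comm]
  refine Finset.sum_congr rfl fun l _ => Finset.sum_congr rfl fun k _ => ?_
  rw [Finset.prod_mul_distrib]
  ring

theorem dec_prod (hI : S_POLI) (r : ℕ) (t : Fin r → ℝ) :
    ∑ ε : Fin r → Bool, (∏ j, sg (ε j)) * (∑ j, sg (ε j) * t j) ^ r =
      2 ^ r * (r.factorial : ℝ) * ∏ j, t j := by
  have h := hI r 1 (fun _ => 1) (fun _ _ => rfl) (fun j _ => t j)
  have h1 : ∀ w : Fin 1 → ℝ, form (fun _ : Fin r → Fin 1 => (1 : ℝ)) w = w 0 ^ r := by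
    intro w
    unfold form
    rw [Fintype.sum_unique]
    simp [Subsingleton.elim _ (0 : Fin 1)]
  have h2 : mform (fun _ : Fin r → Fin 1 => (1 : ℝ)) (fun j _ => t j) = ∏ j, t j := by
    unfold mform
    rw [Fintype.sum_unique]
    simp
  rw [h2] at h
  rw [← h]
  refine Finset.sum_congr rfl fun ε _ => ?_
  rw [h1]
  congr 2
  simp [Finset.sum_apply]

theorem sg_abs (b : Bool) : |sg b| = 1 := by
  cases b <;> simp [sg]

theorem t_DEC (hA : S_AUB) (hP : S_POL) (hI : S_POLI) : S_DEC := by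
  intro r R d p hr hp T hT hR
  obtain ⟨u, a, hua⟩ := hR
  obtain ⟨x, b, hx, hb, hd⟩ := hA R d p (by linarith) u
  have hfac : (0 : ℝ) < r.factorial := by exact_mod_cast Nat.factorial_pos r
  have h2r : (0 : ℝ) < 2 ^ r * (r.factorial : ℝ) := by positivity
  set M : (Fin r → Fin R) → ℝ := fun κ => mform T (fun j => x (κ j)) with hM
  set v : (Fin r → Fin R) × (Fin r → Bool) → Fin d → ℝ :=
    fun q => ∑ j, sg (q.2 j) • b (q.1 j) with hv
  set c : (Fin r → Fin R) × (Fin r → Bool) → ℝ :=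
    fun q => M q.1 * (∏ j, sg (q.2 j)) / (2 ^ r * (r.factorial : ℝ)) with hc
  have hvy : ∀ q (y : Fin d → ℝ), v q ⬝ᵥ y = ∑ j, sg (q.2 j) * (b (q.1 j) ⬝ᵥ y) := by
    intro q y
    rw [hv]
    simp only [sum_dotProduct, smul_dotProduct, smul_eq_mul]
  have hMb : ∀ κ, |M κ| ≤ (r : ℝ) ^ r / r.factorial * injNorm p T := by
    intro κ
    exact hP r d p hr hp T hT (fun j => x (κ j)) (fun j => hx (κ j))
  have hform : ∀ y : Fin d → ℝ, form T y = ∑ κ : Fin r → Fin R, (∏ j, (b (κ j) ⬝ᵥ y)) * M κ := by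
    intro y
    rw [dec_form, dec_mform T u a hua]
    have h1 : ∀ l : Fin r → Fin R, ∏ j, (u (l j) ⬝ᵥ y) =
        ∑ κ : Fin r → Fin R, ∏ j, ((b (κ j) ⬝ᵥ y) * (u (l j) ⬝ᵥ x (κ j))) := by
      intro l
      have := Finset.prod_univ_sum (fun _ : Fin r => (Finset.univ : Finset (Fin R)))
        (fun j k => (b k ⬝ᵥ y) * (u (l j) ⬝ᵥ x k))
      rw [Fintype.piFinset_univ] at this
      rw [← this]
      exact Finset.prod_congr rfl fun j _ => hd (l j) y
    simp_rw [h1, hM]
    simp_rw [dec_mform T u a hua, Finset.mul_sum]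
    rw [Finset.sum_comm]
    refine Finset.sum_congr rfl fun κ _ => Finset.sum_congr rfl fun l _ => ?_
    rw [Finset.prod_mul_distrib]
    ring
  refine ⟨c, v, ?_, ?_, ?_⟩
  · intro q y hy
    rw [hvy]
    refine (Finset.abs_sum_le_sum_abs _ _).trans ?_
    have : ∀ j ∈ (Finset.univ : Finset (Fin r)), |sg (q.2 j) * (b (q.1 j) ⬝ᵥ y)| ≤ 1 := by
      intro j _
      rw [abs_mul, sg_abs, one_mul]
      exact hb _ y hy
    refine (Finset.sum_le_sum this).trans ?_
    simp
  · intro y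
    rw [hform, Fintype.sum_prod_type]
    refine Finset.sum_congr rfl fun κ _ => ?_
    have h1 := dec_prod hI r (fun j => b (κ j) ⬝ᵥ y)
    have h2 : ∏ j, (b (κ j) ⬝ᵥ y) = (∑ ε : Fin r → Bool, (∏ j, sg (ε j)) *
        (∑ j, sg (ε j) * (b (κ j) ⬝ᵥ y)) ^ r) / (2 ^ r * (r.factorial : ℝ)) := by
      rw [h1]
      field_simp
    rw [h2, Finset.sum_div, Finset.sum_mul]
    refine Finset.sum_congr rfl fun ε _ => ?_
    rw [hvy]
    simp only [hc]
    ring
  · have hcb : ∀ q, |c q| * (r : ℝ) ^ r ≤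
        ((r : ℝ) ^ r / r.factorial * injNorm p T) / (2 ^ r * (r.factorial : ℝ)) * (r : ℝ) ^ r := by
      intro q
      have h1 : |c q| = |M q.1| / (2 ^ r * (r.factorial : ℝ)) := by
        simp only [hc]
        rw [abs_div, abs_mul, Finset.abs_prod, abs_of_pos h2r]
        simp [sg_abs]
      rw [h1]
      gcongr
      exact hMb q.1
    refine (Finset.sum_le_sum fun q _ => hcb q).trans (le_of_eq ?_)
    rw [Finset.sum_const, Finset.card_univ, Fintype.card_prod, Fintype.card_fun, Fintype.card_fun,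
      Fintype.card_fin, Fintype.card_fin, Fintype.card_bool, nsmul_eq_mul]
    push_cast
    field_simp

end Pool.Agent.H999R5.Rk
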