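import Pool.Agent.H999R5.Rk.Defs

/-! Task GR of project RK (helper999): contraction principle for Gaussian coefficients. -/

set_option autoImplicit false

namespace Pool.Agent.H999R5.Rk

open MeasureTheory ProbabilityTheory Finset
open Pool.Agent.H999R5.Inj (form SymT injNorm gm gs S_GAU S_BDD)
open scoped Matrix

theorem t_GR (hR : S_RAD) (hN : S_SN) (hS : S_SGN) : S_GR := by
  intro X hX n f h hf hh hfh x0 hx0
  obtain ⟨-, -, -, cf, If⟩ := hN X hX n f hf
  obtain ⟨-, -, -, ch, Ih⟩ := hN X hX n h hh
  have key : ∀ g : Fin n → ℝ, ∑ ε : Fin n → Bool, sn f (fun i => sg (ε i) * g i) ≤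
      2 * ∑ ε : Fin n → Bool, sn h (fun i => sg (ε i) * g i) := by
    intro g
    have bd : ∀ f : Fin n → X → ℝ, Bd f → Bd (fun i x => g i * f i x) := by
      rintro f ⟨B, hB⟩
      refine ⟨(∑ j, |g j|) * |B|, fun i x => ?_⟩
      rw [abs_mul]
      apply mul_le_mul
      · exact Finset.single_le_sum (f := fun j => |g j|) (fun j _ => abs_nonneg _)
          (Finset.mem_univ i)
      · exact (hB i x).trans (le_abs_self B)
      · exact abs_nonneg _
      · exact Finset.sum_nonneg (fun j _ => abs_nonneg _)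
    have h1 := hR X hX n (fun i x => g i * f i x) (fun i x => g i * h i x) (bd f hf) (bd h hh)
      (fun i x y => by
        have e1 : g i * f i x - g i * f i y = g i * (f i x - f i y) := by ring
        have e2 : g i * h i x - g i * h i y = g i * (h i x - h i y) := by ring
        show |g i * f i x - g i * f i y| ≤ |g i * h i x - g i * h i y|
        rw [e1, e2, abs_mul, abs_mul]
        exact mul_le_mul_of_nonneg_left (hfh i x y) (abs_nonneg _))
      x0 (fun i => by
        show g i * f i x0 = 0
        rw [hx0 i, mul_zero])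
    have e : ∀ (f : Fin n → X → ℝ) (ε : Fin n → Bool),
        sn (fun i x => g i * f i x) (fun i => sg (ε i)) = sn f (fun i => sg (ε i) * g i) := by
      intro f ε
      unfold sn
      simp only [mul_assoc]
    simpa only [e] using h1
  have i1 : ∀ ε ∈ (univ : Finset (Fin n → Bool)),
      Integrable (fun g => sn f (fun i => sg (ε i) * g i)) (gm n) :=
    fun ε _ => (hS n ε (sn f) cf If).1
  have i2 : ∀ ε ∈ (univ : Finset (Fin n → Bool)),
      Integrable (fun g => sn h (fun i => sg (ε i) * g i)) (gm n) :=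
    fun ε _ => (hS n ε (sn h) ch Ih).1
  have m := integral_mono (integrable_finset_sum _ i1)
    ((integrable_finset_sum _ i2).const_mul 2) (fun g => key g)
  rw [integral_const_mul, integral_finset_sum _ i1, integral_finset_sum _ i2] at m
  have s1 : ∑ ε : Fin n → Bool, ∫ g, sn f (fun i => sg (ε i) * g i) ∂(gm n) =
      (Fintype.card (Fin n → Bool) : ℝ) * ∫ g, sn f g ∂(gm n) := by
    rw [Finset.sum_congr rfl (fun ε _ => (hS n ε (sn f) cf If).2), Finset.sum_const,
      Finset.card_univ, nsmul_eq_mul]
  have s2 : ∑ ε : Fin n → Bool, ∫ g, sn h (fun i => sg (ε i) * g i) ∂(gm n) =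
      (Fintype.card (Fin n → Bool) : ℝ) * ∫ g, sn h g ∂(gm n) := by
    rw [Finset.sum_congr rfl (fun ε _ => (hS n ε (sn h) ch Ih).2), Finset.sum_const,
      Finset.card_univ, nsmul_eq_mul]
  rw [s1, s2] at m
  have hc : (0 : ℝ) < (Fintype.card (Fin n → Bool) : ℝ) := by
    exact_mod_cast Fintype.card_pos
  have m' : (Fintype.card (Fin n → Bool) : ℝ) * ∫ g, sn f g ∂(gm n) ≤
      (Fintype.card (Fin n → Bool) : ℝ) * (2 * ∫ g, sn h g ∂(gm n)) := by
    linarith
  exact le_of_mul_le_mul_left m' hc

end Pool.Agent.H999R5.Rk
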