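import Pool.Agent.H999R5.Rk.Defs

/-!
Task L2: comparison of the unit balls of `ℓ_2` and `ℓ_p`.
-/

set_option autoImplicit false

namespace Pool.Agent.H999R5.Rk

open Finset

theorem L2_pow (x p : ℝ) : (x ^ 2) ^ (p / 2) = |x| ^ p := by
  rw [← sq_abs, ← Real.rpow_natCast, ← Real.rpow_mul (abs_nonneg x)]
  congr 1
  push_cast
  ring

theorem t_L2 : S_L2 := by
  intro d p hd hp
  have hq : 1 ≤ p / 2 := by linarith
  have hq0 : 0 < p / 2 := by linarith
  have hd0 : (0 : ℝ) ≤ d := Nat.cast_nonneg d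
  constructor
  · intro x hx
    have hx' : ∑ i, |x i| ^ p ≤ 1 := hx
    have h1 := Real.rpow_sum_le_const_mul_sum_rpow_of_nonneg (Finset.univ : Finset (Fin d))
      (f := fun k => x k ^ 2) hq (fun k _ => sq_nonneg (x k))
    simp only [L2_pow] at h1
    rw [Finset.card_univ, Fintype.card_fin] at h1
    have hS : 0 ≤ ∑ k, x k ^ 2 := Finset.sum_nonneg fun k _ => sq_nonneg _
    have h2 : (∑ k, x k ^ 2) ^ (p / 2) ≤ (d : ℝ) ^ (p / 2 - 1) := by
      refine h1.trans ?_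
      have h3 : 0 ≤ (d : ℝ) ^ (p / 2 - 1) := Real.rpow_nonneg hd0 _
      calc (d : ℝ) ^ (p / 2 - 1) * ∑ i, |x i| ^ p ≤ (d : ℝ) ^ (p / 2 - 1) * 1 :=
            mul_le_mul_of_nonneg_left hx' h3
        _ = (d : ℝ) ^ (p / 2 - 1) := mul_one _
    have h4 : ((∑ k, x k ^ 2) ^ (p / 2)) ^ (2 / p) ≤ ((d : ℝ) ^ (p / 2 - 1)) ^ (2 / p) :=
      Real.rpow_le_rpow (Real.rpow_nonneg hS _) h2 (by positivity)
    rw [← Real.rpow_mul hS, ← Real.rpow_mul hd0] at h4
    have e1 : p / 2 * (2 / p) = 1 := by field_simp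
    have e2 : (p / 2 - 1) * (2 / p) = 1 - 2 / p := by field_simp
    rw [e1, e2, Real.rpow_one] at h4
    exact h4
  · intro x hx
    show ∑ i, |x i| ^ p ≤ 1
    refine le_trans (Finset.sum_le_sum fun k _ => ?_) hx
    have h1 : x k ^ 2 ≤ 1 := by
      refine le_trans ?_ hx
      exact Finset.single_le_sum (f := fun k => x k ^ 2) (fun i _ => sq_nonneg (x i))
        (Finset.mem_univ k)
    have h2 : |x k| ≤ 1 := abs_le_one_iff_mul_self_le_one.mpr (by rw [← sq]; exact h1)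
    rcases eq_or_lt_of_le (abs_nonneg (x k)) with h0 | h0
    · rw [← h0, Real.zero_rpow (by linarith)]
      exact sq_nonneg _
    · have h3 := Real.rpow_le_rpow_of_exponent_ge h0 h2 hp
      rw [show (2 : ℝ) = ((2 : ℕ) : ℝ) by norm_num, Real.rpow_natCast, sq_abs] at h3
      exact h3

end Pool.Agent.H999R5.Rk
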