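import Pool.Agent.H999R5.Rk.Defs

set_option autoImplicit false

namespace Pool.Agent.H999R5.Rk

open MeasureTheory ProbabilityTheory Finset
open Pool.Agent.H999R5.Inj (form SymT injNorm gm gs S_GAU S_BDD)
open scoped Matrix

namespace MIXAux

theorem ball_nonempty (d : ℕ) (p : ℝ) (hp : 2 ≤ p) : Nonempty ↥(ball d p) := by
  refine ⟨⟨0, ?_⟩⟩
  show ∑ i, |(0 : Fin d → ℝ) i| ^ p ≤ 1
  have hp0 : p ≠ 0 := by linarith
  simp [Real.zero_rpow hp0]

theorem pow_bd (a b : ℝ) (c : ℝ) (r : ℕ) (h : |a| ≤ b) : |c * a ^ r| ≤ |c| * b ^ r := by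
  rw [abs_mul, abs_pow]
  exact mul_le_mul_of_nonneg_left (pow_le_pow_left₀ (abs_nonneg _) h r) (abs_nonneg _)

/-- weights -/
noncomputable def th (m : ℕ) (K a : ℝ) : ℝ := if K = 0 then 1 / (m : ℝ) else a / K

/-- coefficients -/
noncomputable def co (m : ℕ) (K a c : ℝ) : ℝ := if K = 0 then 0 else c / th m K a

theorem th_nonneg (m : ℕ) (K a : ℝ) (hK : 0 ≤ K) (ha : 0 ≤ a) : 0 ≤ th m K a := by
  unfold th
  split_ifs
  · positivity
  · positivity

theorem th_co (m : ℕ) (K c l y : ℝ) (haK : |c| * l ≤ K) (hl : 0 ≤ l)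
    (hy : |c * y| ≤ |c| * l) : th m K (|c| * l) * (co m K (|c| * l) c * y) = c * y := by
  have hz : |c| * l = 0 → c * y = 0 := by
    intro h
    rw [h] at hy
    exact abs_eq_zero.1 (le_antisymm hy (abs_nonneg _))
  have hl0 : 0 ≤ |c| * l := by positivity
  unfold co
  split_ifs with h
  · have h1 : |c| * l = 0 := le_antisymm (by rw [← h]; exact haK) hl0
    rw [hz h1]
    ring
  · rcases eq_or_ne (|c| * l) 0 with h1 | h1
    · rw [hz h1, h1]
      unfold th
      rw [if_neg h]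
      simp
    · have h2 : th m K (|c| * l) ≠ 0 := by
        unfold th
        rw [if_neg h]
        exact div_ne_zero h1 h
      field_simp

theorem co_le (m : ℕ) (K c l : ℝ) (hK : 0 ≤ K) (hl : 0 ≤ l) :
    |co m K (|c| * l) c| * l ≤ K := by
  unfold co
  split_ifs with h
  · rw [abs_zero, zero_mul]
    exact hK
  · unfold th
    rw [if_neg h]
    rcases eq_or_ne (|c| * l) 0 with h1 | h1
    · rw [h1]
      simpa using hK
    · have h3 : |c| ≠ 0 := left_ne_zero_of_mul h1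
      have h4 : l ≠ 0 := right_ne_zero_of_mul h1
      rw [abs_div, abs_div, abs_mul, abs_abs, abs_of_nonneg hl, abs_of_nonneg hK]
      apply le_of_eq
      field_simp

end MIXAux

open MIXAux

theorem t_MIX (hR : S_RK1) (hC : S_CVX) (hN : S_SN) : S_MIX := by
  intro r d n p hr hd hp ι hF hD c v L hL hv
  have hX : Nonempty ↥(ball d p) := ball_nonempty d p hp
  have hd0 : (0 : ℝ) ≤ 2 * r * (d : ℝ) ^ (1 / 2 - 1 / p) := by positivity
  rcases isEmpty_or_nonempty ι with hE | hE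
  · have h0 : ∀ g : Fin n → ℝ,
        sn (fun i (x : ↥(ball d p)) => ∑ j, c i j * (v i j ⬝ᵥ x.1) ^ r) g = 0 := by
      intro g
      unfold sn
      simp
    simp only [h0, integral_zero]
    positivity
  · obtain ⟨K, hK⟩ : ∃ K : Fin n → ℝ, ∀ i, K i = ∑ j, |c i j| * L i j ^ r := ⟨_, fun _ => rfl⟩
    have hterm : ∀ i j, 0 ≤ |c i j| * L i j ^ r := fun i j =>
      mul_nonneg (abs_nonneg _) (pow_nonneg (hL i j) r)
    have hK0 : ∀ i, 0 ≤ K i := fun i => by
      rw [hK]; exact Finset.sum_nonneg fun j _ => hterm i j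
    have hle : ∀ i j, |c i j| * L i j ^ r ≤ K i := fun i j => by
      rw [hK]
      exact Finset.single_le_sum (f := fun j => |c i j| * L i j ^ r) (fun j _ => hterm i j)
        (Finset.mem_univ j)
    obtain ⟨θ, hθ⟩ : ∃ θ : Fin n → ι → ℝ,
      ∀ i j, θ i j = th (Fintype.card ι) (K i) (|c i j| * L i j ^ r) := ⟨_, fun _ _ => rfl⟩
    obtain ⟨C, hCC⟩ : ∃ C : Fin n → ι → ℝ,
      ∀ i j, C i j = co (Fintype.card ι) (K i) (|c i j| * L i j ^ r) (c i j) :=
        ⟨_, fun _ _ => rfl⟩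
    have hθ0 : ∀ i j, 0 ≤ θ i j := fun i j => by
      rw [hθ]; exact th_nonneg _ _ _ (hK0 i) (hterm i j)
    have hθ1 : ∀ i, ∑ j, θ i j = 1 := by
      intro i
      have hcard : (Fintype.card ι : ℝ) ≠ 0 := by
        have := Fintype.card_ne_zero (α := ι)
        exact_mod_cast this
      rcases eq_or_ne (K i) 0 with h | h
      · have : ∀ j, θ i j = 1 / (Fintype.card ι : ℝ) := fun j => by
          rw [hθ]; unfold th; rw [if_pos h]
        simp only [this, Finset.sum_const, Finset.card_univ, nsmul_eq_mul]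
        field_simp
      · have : ∀ j, θ i j = |c i j| * L i j ^ r / K i := fun j => by
          rw [hθ]; unfold th; rw [if_neg h]
        simp only [this]
        rw [← Finset.sum_div, ← hK i, div_self h]
    have hCK : ∀ i j, |C i j| * L i j ^ r ≤ K i := fun i j => by
      rw [hCC]; exact co_le _ _ _ _ (hK0 i) (pow_nonneg (hL i j) r)
    have hdec : ∀ i j (x : ↥(ball d p)),
        θ i j * (C i j * (v i j ⬝ᵥ x.1) ^ r) = c i j * (v i j ⬝ᵥ x.1) ^ r := by
      intro i j x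
      rw [hθ, hCC]
      exact th_co _ _ _ _ _ (hle i j) (pow_nonneg (hL i j) r) (pow_bd _ _ _ r (hv i j x.1 x.2))
    obtain ⟨B, hB⟩ : ∃ B : ℝ, ∀ i, K i ≤ B := ⟨∑ i, K i, fun i =>
      Finset.single_le_sum (f := K) (fun i _ => hK0 i) (Finset.mem_univ i)⟩
    have hSB : ∀ i j (x : ↥(ball d p)), |C i j * (v i j ⬝ᵥ x.1) ^ r| ≤ B := fun i j x =>
      ((pow_bd _ _ _ r (hv i j x.1 x.2)).trans (hCK i j)).trans (hB i)
    obtain ⟨hw, hcv⟩ := hC (↥(ball d p)) hX n ι hF hD θ
      (fun i j (x : ↥(ball d p)) => C i j * (v i j ⬝ᵥ x.1) ^ r) hθ0 hθ1 ⟨B, hSB⟩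
    have hfun : (fun i (x : ↥(ball d p)) => ∑ j, c i j * (v i j ⬝ᵥ x.1) ^ r) =
        fun i (x : ↥(ball d p)) => ∑ j, θ i j * (C i j * (v i j ⬝ᵥ x.1) ^ r) := by
      funext i x
      exact Finset.sum_congr rfl fun j _ => (hdec i j x).symm
    have hBd : Bd (fun i (x : ↥(ball d p)) => ∑ j, c i j * (v i j ⬝ᵥ x.1) ^ r) := by
      refine ⟨B, fun i x => ?_⟩
      refine (Finset.abs_sum_le_sum_abs _ _).trans ?_
      refine le_trans (Finset.sum_le_sum fun j _ => pow_bd _ _ _ r (hv i j x.1 x.2)) ?_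
      rw [← hK i]
      exact hB i
    have hint := (hN (↥(ball d p)) hX n _ hBd).2.2.2.2
    have hintJ : ∀ J : Fin n → ι, Integrable
        (sn (fun i (x : ↥(ball d p)) => C i (J i) * (v i (J i) ⬝ᵥ x.1) ^ r)) (gm n) := fun J =>
      (hN (↥(ball d p)) hX n _ ⟨B, fun i x => hSB i (J i) x⟩).2.2.2.2
    have hw0 : ∀ J : Fin n → ι, 0 ≤ ∏ i, θ i (J i) := fun J =>
      Finset.prod_nonneg fun i _ => hθ0 i (J i)
    calc ∫ g, sn (fun i (x : ↥(ball d p)) => ∑ j, c i j * (v i j ⬝ᵥ x.1) ^ r) g ∂(gm n)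
        ≤ ∫ g, ∑ J : Fin n → ι, (∏ i, θ i (J i)) *
            sn (fun i (x : ↥(ball d p)) => C i (J i) * (v i (J i) ⬝ᵥ x.1) ^ r) g ∂(gm n) := by
          refine integral_mono hint (integrable_finset_sum _ fun J _ => (hintJ J).const_mul _) ?_
          intro g
          show sn _ g ≤ _
          rw [hfun]
          exact hcv g
      _ = ∑ J : Fin n → ι, (∏ i, θ i (J i)) *
            ∫ g, sn (fun i (x : ↥(ball d p)) => C i (J i) * (v i (J i) ⬝ᵥ x.1) ^ r) g ∂(gm n) := by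
          rw [integral_finset_sum _ fun J _ => (hintJ J).const_mul _]
          refine Finset.sum_congr rfl fun J _ => ?_
          rw [integral_const_mul]
      _ ≤ ∑ J : Fin n → ι, (∏ i, θ i (J i)) *
            (2 * r * (d : ℝ) ^ (1 / 2 - 1 / p) * Real.sqrt (∑ i, K i ^ 2)) := by
          refine Finset.sum_le_sum fun J _ => mul_le_mul_of_nonneg_left ?_ (hw0 J)
          refine (hR r d n p hr hd hp (fun i => C i (J i)) (fun i => v i (J i))
            (fun i => L i (J i)) (fun i => hL i (J i)) (fun i x hx => hv i (J i) x hx)).trans ?_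
          refine mul_le_mul_of_nonneg_left (Real.sqrt_le_sqrt ?_) hd0
          refine Finset.sum_le_sum fun i _ => ?_
          exact pow_le_pow_left₀ (mul_nonneg (abs_nonneg _) (pow_nonneg (hL i (J i)) r))
            (hCK i (J i)) 2
      _ = 2 * r * (d : ℝ) ^ (1 / 2 - 1 / p) * Real.sqrt (∑ i, K i ^ 2) := by
          rw [← Finset.sum_mul, hw, one_mul]
      _ = 2 * r * (d : ℝ) ^ (1 / 2 - 1 / p) *
            Real.sqrt (∑ i, (∑ j, |c i j| * L i j ^ r) ^ 2) := by
          simp only [hK]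

end Pool.Agent.H999R5.Rk
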