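import Pool.Agent.H999R5.Rk.Defs

set_option autoImplicit false

namespace Pool.Agent.H999R5.Rk

open MeasureTheory ProbabilityTheory Finset
open Pool.Agent.H999R5.Inj (form SymT injNorm gm gs S_GAU S_BDD)
open scoped Matrix

theorem pol_hom {d r : ℕ} (T : (Fin r → Fin d) → ℝ) (c : ℝ) (y : Fin d → ℝ) :
    form T (fun i => c * y i) = c ^ r * form T y := by
  unfold form
  rw [Finset.mul_sum]
  apply Finset.sum_congr rfl
  intro k _
  rw [Finset.prod_mul_distrib, Finset.prod_const, Finset.card_univ, Fintype.card_fin]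
  ring

theorem pol_sg (b : Bool) : |sg b| = 1 := by
  unfold sg
  cases b <;> simp

theorem pol_ball {r d : ℕ} (p : ℝ) (hr : 1 ≤ r) (hp : 1 ≤ p) (x : Fin r → Fin d → ℝ)
    (hx : ∀ j, x j ∈ ball d p) (ε : Fin r → Bool) :
    ∑ i, |(∑ j, sg (ε j) • x j) i / r| ^ p ≤ 1 := by
  have hr0 : (0 : ℝ) < r := by exact_mod_cast hr
  have h1 : ∀ i, |(∑ j, sg (ε j) • x j) i / r| ^ p ≤ ∑ j, (1 / (r : ℝ)) * |x j i| ^ p := by
    intro i
    have h2 : |(∑ j, sg (ε j) • x j) i / r| ≤ ∑ j, (1 / (r : ℝ)) * |x j i| := by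
      rw [Finset.sum_apply, abs_div, abs_of_pos hr0, ← Finset.mul_sum, div_eq_mul_one_div,
        mul_comm]
      apply mul_le_mul_of_nonneg_left _ (by positivity)
      refine (Finset.abs_sum_le_sum_abs _ _).trans ?_
      apply Finset.sum_le_sum
      intro j _
      rw [Pi.smul_apply, smul_eq_mul, abs_mul, pol_sg, one_mul]
    refine (Real.rpow_le_rpow (abs_nonneg _) h2 (by linarith)).trans ?_
    apply Real.rpow_arith_mean_le_arith_mean_rpow
    · intro j _; positivity
    · rw [Finset.sum_const, Finset.card_univ, Fintype.card_fin, nsmul_eq_mul]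
      field_simp
    · intro j _; exact abs_nonneg _
    · exact hp
  calc ∑ i, |(∑ j, sg (ε j) • x j) i / r| ^ p ≤ ∑ i, ∑ j, (1 / (r : ℝ)) * |x j i| ^ p :=
        Finset.sum_le_sum (fun i _ => h1 i)
    _ = ∑ j, (1 / (r : ℝ)) * ∑ i, |x j i| ^ p := by
        rw [Finset.sum_comm]
        apply Finset.sum_congr rfl
        intro j _
        rw [Finset.mul_sum]
    _ ≤ ∑ _j : Fin r, (1 / (r : ℝ)) * 1 := by
        apply Finset.sum_le_sum
        intro j _
        apply mul_le_mul_of_nonneg_left _ (by positivity)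
        exact hx j
    _ = 1 := by
        rw [Finset.sum_const, Finset.card_univ, Fintype.card_fin, nsmul_eq_mul]
        field_simp

theorem t_POL (hP : S_POLI) (hB : S_BDD) : S_POL := by
  intro r d p hr hp T hT x hx
  have hr0 : (0 : ℝ) < r := by exact_mod_cast hr
  have hf : (0 : ℝ) < r.factorial := by exact_mod_cast r.factorial_pos
  have h0 := hP r d T hT x
  have h1 : ∀ ε : Fin r → Bool,
      |(∏ j, sg (ε j)) * form T (∑ j, sg (ε j) • x j)| ≤ (r : ℝ) ^ r * injNorm p T := by
    intro ε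
    have h2 : |∏ j, sg (ε j)| = 1 := by
      rw [Finset.abs_prod]
      apply Finset.prod_eq_one
      intro j _
      exact pol_sg _
    rw [abs_mul, h2, one_mul]
    have h3 : (∑ j, sg (ε j) • x j) =
        fun i => (r : ℝ) * ((∑ j, sg (ε j) • x j) i / r) := by
      funext i
      field_simp
    rw [h3, pol_hom, abs_mul, abs_of_pos (by positivity : (0 : ℝ) < (r : ℝ) ^ r)]
    apply mul_le_mul_of_nonneg_left _ (by positivity)
    exact (hB d r p (by linarith) T).1 _ (pol_ball p hr hp x hx ε)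
  have h2 : 2 ^ r * (r.factorial : ℝ) * |mform T x| ≤ 2 ^ r * ((r : ℝ) ^ r * injNorm p T) := by
    calc 2 ^ r * (r.factorial : ℝ) * |mform T x| = |2 ^ r * (r.factorial : ℝ) * mform T x| := by
          rw [abs_mul, abs_of_pos (by positivity : (0 : ℝ) < 2 ^ r * (r.factorial : ℝ))]
      _ = |∑ ε : Fin r → Bool, (∏ j, sg (ε j)) * form T (∑ j, sg (ε j) • x j)| := by rw [h0]
      _ ≤ ∑ ε : Fin r → Bool, |(∏ j, sg (ε j)) * form T (∑ j, sg (ε j) • x j)| :=
          Finset.abs_sum_le_sum_abs _ _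
      _ ≤ ∑ _ε : Fin r → Bool, (r : ℝ) ^ r * injNorm p T := Finset.sum_le_sum (fun ε _ => h1 ε)
      _ = 2 ^ r * ((r : ℝ) ^ r * injNorm p T) := by
          rw [Finset.sum_const, Finset.card_univ, Fintype.card_fun, Fintype.card_bool,
            Fintype.card_fin, nsmul_eq_mul]
          push_cast
          ring
  have h3 : (r.factorial : ℝ) * |mform T x| ≤ (r : ℝ) ^ r * injNorm p T := by
    have h4 : (0 : ℝ) < 2 ^ r := by positivity
    rw [mul_assoc] at h2
    exact le_of_mul_le_mul_left h2 h4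
  rw [div_mul_eq_mul_div, le_div_iff₀ hf]
  linarith

end Pool.Agent.H999R5.Rk
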