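import Pool.Agent.H999R5.Rk.Defs

/-!
# Task POLI: the polarisation identity
-/

set_option autoImplicit false

namespace Pool.Agent.H999R5.Rk

open Finset
open Pool.Agent.H999R5.Inj (form SymT)

namespace POLI

lemma sg_mul_self (b : Bool) : sg b * sg b = 1 := by
  unfold sg; split_ifs <;> norm_num

lemma sg_not (b : Bool) : sg (!b) = -sg b := by
  cases b <;> simp [sg]

lemma form_expand {d r : ℕ} (T : (Fin r → Fin d) → ℝ) (x : Fin r → Fin d → ℝ)
    (ε : Fin r → Bool) :
    form T (∑ j, sg (ε j) • x j) =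
      ∑ l : Fin r → Fin r, (∏ m, sg (ε (l m))) * mform T (fun m => x (l m)) := by
  have h1 : ∀ k : Fin r → Fin d, ∏ m, (∑ j, sg (ε j) • x j) (k m) =
      ∑ l : Fin r → Fin r, (∏ m, sg (ε (l m))) * ∏ m, x (l m) (k m) := by
    intro k
    have h2 : ∀ m, (∑ j, sg (ε j) • x j) (k m) = ∑ j, sg (ε j) * x j (k m) := by
      intro m
      rw [Finset.sum_apply]
      rfl
    simp only [h2]
    rw [Finset.prod_univ_sum, Fintype.piFinset_univ]
    refine Finset.sum_congr rfl fun l _ => ?_
    rw [Finset.prod_mul_distrib]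
  unfold form mform
  simp only [h1, Finset.mul_sum]
  rw [Finset.sum_comm]
  refine Finset.sum_congr rfl fun l _ => Finset.sum_congr rfl fun k _ => ?_
  ring

lemma flip_zero {r : ℕ} (l : Fin r → Fin r) (hl : ¬Function.Bijective l) :
    ∑ ε : Fin r → Bool, (∏ j, sg (ε j)) * ∏ m, sg (ε (l m)) = 0 := by
  have hs : ¬Function.Surjective l := fun h => hl (Finite.surjective_iff_bijective.mp h)
  rw [Function.Surjective] at hs
  push Not at hs
  obtain ⟨j0, hj0⟩ := hs
  let e : (Fin r → Bool) → (Fin r → Bool) := fun ε => Function.update ε j0 (!(ε j0))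
  have he : Function.Involutive e := by
    intro ε
    simp [e]
  let E : Equiv.Perm (Fin r → Bool) := Function.Involutive.toPerm e he
  have hE : ∀ ε, E ε = Function.update ε j0 (!(ε j0)) := fun _ => rfl
  have h1 := (Equiv.sum_comp E
    (fun ε : Fin r → Bool => (∏ j, sg (ε j)) * ∏ m, sg (ε (l m))))
  have h2 : ∀ ε : Fin r → Bool, (∏ j, sg (E ε j)) * ∏ m, sg (E ε (l m)) =
      -((∏ j, sg (ε j)) * ∏ m, sg (ε (l m))) := by
    intro ε
    have a1 : ∏ m, sg (E ε (l m)) = ∏ m, sg (ε (l m)) := by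
      refine Finset.prod_congr rfl fun m _ => ?_
      rw [hE, Function.update_of_ne (hj0 m)]
    have a2 : ∏ j, sg (E ε j) = -∏ j, sg (ε j) := by
      rw [← Finset.mul_prod_erase Finset.univ _ (Finset.mem_univ j0),
        ← Finset.mul_prod_erase Finset.univ (fun j => sg (ε j)) (Finset.mem_univ j0)]
      have a3 : sg (E ε j0) = -sg (ε j0) := by
        rw [hE, Function.update_self, sg_not]
      have a4 : ∏ j ∈ Finset.univ.erase j0, sg (E ε j) =
          ∏ j ∈ Finset.univ.erase j0, sg (ε j) := by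
        refine Finset.prod_congr rfl fun j hj => ?_
        rw [hE, Function.update_of_ne (Finset.ne_of_mem_erase hj)]
      rw [a3, a4]; ring
    rw [a1, a2]; ring
  simp only [h2, Finset.sum_neg_distrib] at h1
  linarith

lemma perm_sum {r : ℕ} (σ : Equiv.Perm (Fin r)) :
    ∑ ε : Fin r → Bool, (∏ j, sg (ε j)) * ∏ m, sg (ε (σ m)) = 2 ^ r := by
  have h1 : ∀ ε : Fin r → Bool, (∏ j, sg (ε j)) * ∏ m, sg (ε (σ m)) = 1 := by
    intro ε
    rw [Equiv.prod_comp σ (fun j => sg (ε j)), ← Finset.prod_mul_distrib]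
    exact Finset.prod_eq_one fun j _ => sg_mul_self _
  simp only [h1, Finset.sum_const, Finset.card_univ, Fintype.card_fun, Fintype.card_bool,
    Fintype.card_fin, nsmul_eq_mul, mul_one]
  push_cast
  rfl

lemma mform_perm {d r : ℕ} (T : (Fin r → Fin d) → ℝ) (hT : SymT T) (x : Fin r → Fin d → ℝ)
    (σ : Equiv.Perm (Fin r)) : mform T (fun m => x (σ m)) = mform T x := by
  unfold mform
  have h := Equiv.sum_comp (Equiv.arrowCongr σ.symm (Equiv.refl (Fin d)))
    (fun k : Fin r → Fin d => T k * ∏ m, x (σ m) (k m))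
  rw [← h]
  refine Finset.sum_congr rfl fun k _ => ?_
  have e : (Equiv.arrowCongr σ.symm (Equiv.refl (Fin d))) k = k ∘ σ := by
    ext m; simp
  rw [e, hT σ k]
  congr 1
  exact Equiv.prod_comp σ (fun j => x j (k j))

end POLI

open POLI in
theorem t_POLI : S_POLI := by
  intro r d T hT x
  simp only [form_expand, Finset.mul_sum]
  rw [Finset.sum_comm]
  have h1 : ∀ l : Fin r → Fin r, ∑ ε : Fin r → Bool, (∏ j, sg (ε j)) *
      ((∏ m, sg (ε (l m))) * mform T (fun m => x (l m))) =
      (∑ ε : Fin r → Bool, (∏ j, sg (ε j)) * ∏ m, sg (ε (l m))) *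
        mform T (fun m => x (l m)) := by
    intro l
    rw [Finset.sum_mul]
    refine Finset.sum_congr rfl fun ε _ => by ring
  simp only [h1]
  classical
  calc ∑ l : Fin r → Fin r, (∑ ε : Fin r → Bool, (∏ j, sg (ε j)) * ∏ m, sg (ε (l m))) *
        mform T (fun m => x (l m))
      = ∑ l ∈ (Finset.univ : Finset (Fin r → Fin r)).filter Function.Bijective,
        (∑ ε : Fin r → Bool, (∏ j, sg (ε j)) * ∏ m, sg (ε (l m))) *
        mform T (fun m => x (l m)) := by
        refine (Finset.sum_subset (Finset.filter_subset _ _) fun l _ hl => ?_).symm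
        have hl' : ¬Function.Bijective l := by
          simpa only [true_and, Finset.mem_filter, Finset.mem_univ] using hl
        rw [flip_zero l hl', zero_mul]
    _ = ∑ σ : Equiv.Perm (Fin r), (∑ ε : Fin r → Bool, (∏ j, sg (ε j)) *
        ∏ m, sg (ε (σ m))) * mform T (fun m => x (σ m)) :=
        Finset.sum_bij (fun p h => Equiv.ofBijective p (Finset.mem_filter.1 h).2)
          (fun _ _ => Finset.mem_univ _) (fun _ _ _ _ h => by injection h)
          (fun b _ => ⟨b, Finset.mem_filter.2 ⟨Finset.mem_univ _, b.bijective⟩,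
            Equiv.coe_fn_injective rfl⟩) fun _ _ => rfl
    _ = ∑ σ : Equiv.Perm (Fin r), (2 : ℝ) ^ r * mform T x := by
        refine Finset.sum_congr rfl fun σ _ => ?_
        rw [perm_sum, mform_perm T hT]
    _ = 2 ^ r * (r.factorial : ℝ) * mform T x := by
        rw [Finset.sum_const, Finset.card_univ, Fintype.card_perm, Fintype.card_fin,
          nsmul_eq_mul]
        ring

end Pool.Agent.H999R5.Rk
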