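import Pool.Agent.H999R5.Rk.Defs

set_option autoImplicit false

namespace Pool.Agent.H999R5.Rk

open MeasureTheory ProbabilityTheory Finset
open Pool.Agent.H999R5.Inj (form SymT injNorm gm gs S_GAU S_BDD)
open scoped Matrix

theorem RES_form {d r n : ℕ} (T : Fin n → (Fin r → Fin d) → ℝ) (g : Fin n → ℝ) (x : Fin d → ℝ) :
    form (gs T g) x = ∑ i, g i * form (T i) x := by
  unfold form gs
  simp only [Finset.sum_mul, Finset.mul_sum]
  rw [Finset.sum_comm]
  refine Finset.sum_congr rfl fun i _ => Finset.sum_congr rfl fun k _ => ?_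
  ring

theorem t_RES (hM : S_MIX) (hD : S_DEC) (hB : S_BDD) (hN : S_SN) : S_RES := by
  intro r R p hr hp d n hd T hsym hrank
  have hp0 : 0 < p := by linarith
  choose c v hv hform hnuc using fun i => hD r R d p hr (by linarith) (T i) (hsym i) (hrank i)
  have hne : Nonempty (ball d p) := by
    refine ⟨⟨0, ?_⟩⟩
    show ∑ i : Fin d, |(0 : Fin d → ℝ) i| ^ p ≤ 1
    simp [Real.zero_rpow hp0.ne']
  let f : Fin n → ↥(ball d p) → ℝ := fun i x => ∑ q, c i q * (v i q ⬝ᵥ x.1) ^ r
  have hf : ∀ i x, f i x = form (T i) x.1 := fun i x => (hform i x.1).symm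
  have hinj0 : ∀ i, 0 ≤ injNorm p (T i) := fun i => (hB d r p hp0 (T i)).2.2
  have hBd : Bd f := by
    refine ⟨∑ i, injNorm p (T i), fun i x => ?_⟩
    rw [hf]
    refine ((hB d r p hp0 (T i)).1 x.1 x.2).trans ?_
    exact Finset.single_le_sum (f := fun i => injNorm p (T i)) (fun i _ => hinj0 i)
      (Finset.mem_univ i)
  obtain ⟨h1, h2, _, _, h5⟩ := hN (↥(ball d p)) hne n f hBd
  have key : ∀ g, injNorm p (gs T g) = sn f g := by
    intro g
    apply le_antisymm
    · refine (hB d r p hp0 (gs T g)).2.1 _ fun x hx => ?_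
      rw [RES_form]
      have := h1 g ⟨x, hx⟩
      simpa only [hf] using this
    · refine h2 g _ fun x => ?_
      have := (hB d r p hp0 (gs T g)).1 x.1 x.2
      rw [RES_form] at this
      simpa only [hf] using this
  have hfun : (fun g => injNorm p (gs T g)) = sn f := funext key
  rw [hfun]
  refine ⟨h5, ?_⟩
  have h6 := hM r d n p hr hd hp _ inferInstance inferInstance c v (fun _ _ => (r : ℝ))
    (fun _ _ => Nat.cast_nonneg r) hv
  refine (le_of_eq ?_ : ∫ g, sn f g ∂(gm n) ≤ _).trans (h6.trans ?_)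
  · rfl
  · set K : ℝ := (R : ℝ) ^ r * ((r : ℝ) ^ r / r.factorial) ^ 2 with hK
    have hK0 : 0 ≤ K := by positivity
    have h7 : Real.sqrt (∑ i, (∑ j, |c i j| * (r : ℝ) ^ r) ^ 2) ≤
        K * Real.sqrt (∑ i, injNorm p (T i) ^ 2) := by
      rw [← Real.sqrt_sq hK0, ← Real.sqrt_mul (sq_nonneg K)]
      apply Real.sqrt_le_sqrt
      rw [Finset.mul_sum]
      refine Finset.sum_le_sum fun i _ => ?_
      rw [← mul_pow]
      exact pow_le_pow_left₀ (Finset.sum_nonneg fun j _ => by positivity) (hnuc i) 2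
    have h8 : 0 ≤ 2 * (r : ℝ) * (d : ℝ) ^ (1 / 2 - 1 / p) := by positivity
    refine (mul_le_mul_of_nonneg_left h7 h8).trans (le_of_eq ?_)
    rw [hK]
    ring

end Pool.Agent.H999R5.Rk
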