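import Pool.Agent.H999R5.Rk.Defs

/-! Task RK1: the case of rank one. -/

set_option autoImplicit false

namespace Pool.Agent.H999R5.Rk

open MeasureTheory ProbabilityTheory Finset
open Pool.Agent.H999R5.Inj (form SymT injNorm gm gs S_GAU S_BDD)
open scoped Matrix

theorem rk1_pow (a b L : ℝ) (r : ℕ) (ha : |a| ≤ L) (hb : |b| ≤ L) :
    |a ^ r - b ^ r| ≤ r * L ^ (r - 1) * |a - b| := by
  have hL : 0 ≤ L := (abs_nonneg a).trans ha
  rw [← Commute.geom_sum₂_mul (Commute.all a b) r, abs_mul]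
  refine mul_le_mul_of_nonneg_right ?_ (abs_nonneg _)
  refine (Finset.abs_sum_le_sum_abs _ _).trans ?_
  have h : ∀ i ∈ Finset.range r, |a ^ i * b ^ (r - 1 - i)| ≤ L ^ (r - 1) := by
    intro i hi
    have hi' := Finset.mem_range.1 hi
    rw [abs_mul, abs_pow, abs_pow]
    calc |a| ^ i * |b| ^ (r - 1 - i) ≤ L ^ i * L ^ (r - 1 - i) :=
          mul_le_mul (pow_le_pow_left₀ (abs_nonneg _) ha _)
            (pow_le_pow_left₀ (abs_nonneg _) hb _) (by positivity) (by positivity)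
      _ = L ^ (r - 1) := by
          rw [← pow_add]
          congr 1
          omega
  refine (Finset.sum_le_sum h).trans ?_
  rw [Finset.sum_const, Finset.card_range, nsmul_eq_mul]

theorem rk1_zero (d : ℕ) (p : ℝ) (hp : 2 ≤ p) : (0 : Fin d → ℝ) ∈ ball d p := by
  show ∑ i : Fin d, |(0 : Fin d → ℝ) i| ^ p ≤ 1
  have : ∀ i : Fin d, |(0 : Fin d → ℝ) i| ^ p = 0 := by
    intro i
    rw [Pi.zero_apply, abs_zero, Real.zero_rpow (by linarith)]
  rw [Finset.sum_congr rfl (fun i _ => this i)]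
  simp

theorem t_RK1 (hG : S_GR) (h1 : S_L1) : S_RK1 := by
  intro r d n p hr hd hp c v L hL hv
  have hx0 := rk1_zero d p hp
  set u : Fin n → Fin d → ℝ := fun i => ((r : ℝ) * c i * L i ^ (r - 1)) • v i with hu
  have hux : ∀ i (x : Fin d → ℝ), u i ⬝ᵥ x = ((r : ℝ) * c i * L i ^ (r - 1)) * (v i ⬝ᵥ x) := by
    intro i x
    rw [hu]
    simp only [smul_dotProduct, smul_eq_mul]
  set N : Fin n → ℝ := fun i => (r : ℝ) * (|c i| * L i ^ r) with hN
  have hN0 : ∀ i, 0 ≤ N i := by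
    intro i
    have := hL i
    rw [hN]
    positivity
  have hNb : ∀ i, ∀ x ∈ ball d p, |u i ⬝ᵥ x| ≤ N i := by
    intro i x hx
    have hLi := hL i
    rw [hux, abs_mul, abs_mul, abs_mul, abs_pow, abs_of_nonneg hLi, Nat.abs_cast]
    have e : L i ^ r = L i ^ (r - 1) * L i := by
      rw [← pow_succ]
      congr 1
      omega
    calc (r : ℝ) * |c i| * L i ^ (r - 1) * |v i ⬝ᵥ x| ≤ (r : ℝ) * |c i| * L i ^ (r - 1) * L i :=
          mul_le_mul_of_nonneg_left (hv i x hx) (by positivity)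
      _ = N i := by
          rw [hN]
          simp only [e]
          ring
  have hmain := hG (↥(ball d p)) ⟨⟨0, hx0⟩⟩ n (fun i x => c i * (v i ⬝ᵥ x.1) ^ r)
    (fun i x => u i ⬝ᵥ x.1) (by
      refine ⟨∑ i, |c i| * L i ^ r, ?_⟩
      intro i x
      have hLi := hL i
      have h2 : |c i * (v i ⬝ᵥ x.1) ^ r| ≤ |c i| * L i ^ r := by
        rw [abs_mul, abs_pow]
        exact mul_le_mul_of_nonneg_left (pow_le_pow_left₀ (abs_nonneg _) (hv i x.1 x.2) _)
          (abs_nonneg _)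
      refine h2.trans ?_
      exact Finset.single_le_sum (f := fun i => |c i| * L i ^ r)
        (fun j _ => by have := hL j; positivity) (Finset.mem_univ i)) (by
      refine ⟨∑ i, N i, ?_⟩
      intro i x
      refine (hNb i x.1 x.2).trans ?_
      exact Finset.single_le_sum (f := N) (fun j _ => hN0 j) (Finset.mem_univ i)) (by
      intro i x y
      have hLi := hL i
      have e1 : c i * (v i ⬝ᵥ x.1) ^ r - c i * (v i ⬝ᵥ y.1) ^ r =
          c i * ((v i ⬝ᵥ x.1) ^ r - (v i ⬝ᵥ y.1) ^ r) := by ring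
      have e2 : u i ⬝ᵥ x.1 - u i ⬝ᵥ y.1 =
          ((r : ℝ) * c i * L i ^ (r - 1)) * (v i ⬝ᵥ x.1 - v i ⬝ᵥ y.1) := by
        rw [hux, hux]
        ring
      simp only [e1, e2]
      rw [abs_mul, abs_mul, abs_mul, abs_mul, abs_pow, abs_of_nonneg hLi, Nat.abs_cast]
      have h3 := rk1_pow (v i ⬝ᵥ x.1) (v i ⬝ᵥ y.1) (L i) r (hv i x.1 x.2) (hv i y.1 y.2)
      calc |c i| * |(v i ⬝ᵥ x.1) ^ r - (v i ⬝ᵥ y.1) ^ r|
          ≤ |c i| * (r * L i ^ (r - 1) * |v i ⬝ᵥ x.1 - v i ⬝ᵥ y.1|) :=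
            mul_le_mul_of_nonneg_left h3 (abs_nonneg _)
        _ = (r : ℝ) * |c i| * L i ^ (r - 1) * |v i ⬝ᵥ x.1 - v i ⬝ᵥ y.1| := by ring)
    ⟨0, hx0⟩ (by
      intro i
      show c i * (v i ⬝ᵥ (0 : Fin d → ℝ)) ^ r = 0
      rw [dotProduct_zero, zero_pow (by omega), mul_zero])
  have hL1 := h1 d n p hd hp u N hN0 hNb
  refine hmain.trans ?_
  have hsq : Real.sqrt (∑ i, N i ^ 2) = (r : ℝ) * Real.sqrt (∑ i, (|c i| * L i ^ r) ^ 2) := by
    have e : ∑ i, N i ^ 2 = (r : ℝ) ^ 2 * ∑ i, (|c i| * L i ^ r) ^ 2 := by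
      rw [Finset.mul_sum]
      refine Finset.sum_congr rfl ?_
      intro i _
      rw [hN]
      ring
    rw [e, Real.sqrt_mul (by positivity), Real.sqrt_sq (by positivity)]
  rw [hsq] at hL1
  calc 2 * ∫ g, sn (fun i (x : ↥(ball d p)) => u i ⬝ᵥ x.1) g ∂(gm n)
      ≤ 2 * ((d : ℝ) ^ (1 / 2 - 1 / p) * ((r : ℝ) * Real.sqrt (∑ i, (|c i| * L i ^ r) ^ 2))) :=
        mul_le_mul_of_nonneg_left hL1 (by norm_num)
    _ = 2 * r * (d : ℝ) ^ (1 / 2 - 1 / p) * Real.sqrt (∑ i, (|c i| * L i ^ r) ^ 2) := by ring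

end Pool.Agent.H999R5.Rk
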