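import Pool.Agent.H999R5.Rk.Defs

set_option autoImplicit false

namespace Pool.Agent.H999R5.Rk

open MeasureTheory ProbabilityTheory Finset
open Pool.Agent.H999R5.Inj (form SymT injNorm gm gs S_GAU S_BDD)

namespace SGNh

theorem sg_sq (b : Bool) : sg b ^ 2 = 1 := by
  unfold sg
  split_ifs <;> norm_num

theorem mp_one (b : Bool) :
    MeasurePreserving (fun x : ℝ => sg b * x) (gaussianReal 0 1) (gaussianReal 0 1) := by
  refine ⟨by fun_prop, ?_⟩
  have h := gaussianReal_map_const_mul (μ := 0) (v := 1) (sg b)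
  have e : NNReal.mk (sg b ^ 2) (sq_nonneg _) * 1 = 1 := by
    apply NNReal.eq
    rw [mul_one]
    exact sg_sq b
  rw [mul_zero, e] at h
  exact h

theorem mp_all {n : ℕ} (ε : Fin n → Bool) :
    MeasurePreserving (fun g : Fin n → ℝ => fun i => sg (ε i) * g i) (gm n) (gm n) :=
  measurePreserving_pi (fun _ => gaussianReal 0 1) (fun _ => gaussianReal 0 1)
    fun i => mp_one (ε i)

end SGNh

theorem t_SGN : S_SGN := by
  intro n ε F hF hi
  have hmp := SGNh.mp_all ε
  refine ⟨(hmp.integrable_comp hi.aestronglyMeasurable).2 hi, ?_⟩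
  have h := integral_map (μ := gm n) (φ := fun g : Fin n → ℝ => fun i => sg (ε i) * g i)
    hmp.measurable.aemeasurable (f := F) (by rw [hmp.map_eq]; exact hi.aestronglyMeasurable)
  rw [hmp.map_eq] at h
  exact h.symm

end Pool.Agent.H999R5.Rk
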