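import Pool.Agent.H999R5.Rk.Defs

/-!
# VAR: second moments of Gaussian sums
-/

set_option autoImplicit false

namespace Pool.Agent.H999R5.Rk

open MeasureTheory ProbabilityTheory Finset
open Pool.Agent.H999R5.Inj (form SymT injNorm gm gs S_GAU S_BDD)
open scoped Matrix

theorem t_VAR (hG : S_GAU) : S_VAR := by
  intro n d u
  have hprob : IsProbabilityMeasure (gm n) := by
    unfold gm
    infer_instance
  have h2 : ∀ i j : Fin n, Integrable (fun g : Fin n → ℝ => g i * g j) (gm n) := by
    intro i j
    have h := (hG n (MvPolynomial.X i * MvPolynomial.X j)).1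
    simpa using h
  have h3 : ∀ i j : Fin n, ∫ g, g i * g j ∂(gm n) = if i = j then 1 else 0 := by
    intro i j
    have h := (hG n (MvPolynomial.X j)).2 i
    simp only [MvPolynomial.eval_X, MvPolynomial.pderiv_X] at h
    rw [h]
    by_cases hij : i = j
    · subst hij
      simp
    · rw [if_neg hij]
      have : (Pi.single i (1 : MvPolynomial (Fin n) ℝ) : Fin n → MvPolynomial (Fin n) ℝ) j = 0 := by
        rw [Pi.single_eq_of_ne]
        exact fun h => hij h.symm
      simp [this]
  have hexp : (fun g : Fin n → ℝ => ∑ k, (∑ i, g i * u i k) ^ 2) =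
      fun g => ∑ k, ∑ i, ∑ j, (g i * g j) * (u i k * u j k) := by
    funext g
    refine Finset.sum_congr rfl fun k _ => ?_
    rw [sq, Finset.sum_mul_sum]
    refine Finset.sum_congr rfl fun i _ => Finset.sum_congr rfl fun j _ => ?_
    ring
  have hint : ∀ (k : Fin d) (i j : Fin n),
      Integrable (fun g : Fin n → ℝ => (g i * g j) * (u i k * u j k)) (gm n) :=
    fun k i j => (h2 i j).mul_const _
  rw [hexp]
  constructor
  · exact integrable_finset_sum _ fun k _ => integrable_finset_sum _ fun i _ =>
      integrable_finset_sum _ fun j _ => hint k i j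
  · rw [integral_finset_sum _ fun k _ => integrable_finset_sum _ fun i _ =>
      integrable_finset_sum _ fun j _ => hint k i j]
    rw [Finset.sum_comm (f := fun i k => u i k ^ 2)]
    refine Finset.sum_congr rfl fun k _ => ?_
    rw [integral_finset_sum _ fun i _ => integrable_finset_sum _ fun j _ => hint k i j]
    refine Finset.sum_congr rfl fun i _ => ?_
    rw [integral_finset_sum _ fun j _ => hint k i j]
    have : ∀ j, ∫ g, (g i * g j) * (u i k * u j k) ∂(gm n) =
        if i = j then u i k * u j k else 0 := by
      intro j
      rw [integral_mul_const, h3]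
      split_ifs <;> simp
    simp only [this]
    rw [Finset.sum_ite_eq]
    simp [sq]

end Pool.Agent.H999R5.Rk
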